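import Pool.Agent.Helper94.UP.Sheet

set_option autoImplicit false

open scoped ZeroAtInfty ContDiff NNReal
open Set Filter Topology MeasureTheory

namespace Pool.Agent.Helper94.UP

open Pool.Agent.Helper94.UF Pool.Agent.Helper94.SR

theorem stA5.{u} (h1 : ST_A4.{u}) : ST_A5.{u} := by
  intro k X _ _ _ D hk hD hA hS C hC q M hM hq1 hq2 f Λ hΛ hf ε hε
  rcases hΛ.eq_or_lt with h0 | h0
  · refine ⟨fun _ => f 0, contDiff_const, ?_, ?_⟩
    · intro x y
      rw [← h0]
      simp
    · intro x
      have h := hf x 0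
      rw [← h0, zero_mul] at h
      exact lt_of_le_of_lt h hε
  · obtain ⟨g, hg1, hg2, hg3⟩ := hS q M hM hq1 hq2 f Λ hΛ hf (ε / 2) (half_pos hε)
    have hg2' : ∀ x y, |g x - g y| ≤ Λ * q (x - y) := fun x y => by
      have := hg2 x y
      rwa [one_mul] at this
    obtain ⟨h, hh1, hh2, hh3⟩ := h1 hk hD hA q M hM hq1 hq2 g Λ ((C - 1) * Λ) (ε / 4) hΛ
      (mul_pos (sub_pos.2 hC) h0) (by positivity) hg1 hg2'
    refine ⟨h, hh1, ?_, ?_⟩
    · intro x y
      have := hh2 x y
      have e : Λ + (C - 1) * Λ = C * Λ := by ring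
      rwa [e] at this
    · intro x
      have a1 := hg3 x
      have a2 := hh3 x
      have a3 : |f x - h x| ≤ |f x - g x| + |h x - g x| := by
        have := abs_sub_le (f x) (g x) (h x)
        rwa [abs_sub_comm (g x) (h x)] at this
      linarith

end Pool.Agent.Helper94.UP
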