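import Pool.Agent.Helper94.UP.Sheet

set_option autoImplicit false

open scoped ZeroAtInfty ContDiff NNReal
open Set Filter Topology MeasureTheory

namespace Pool.Agent.Helper94.UP

open Pool.Agent.Helper94.UF Pool.Agent.Helper94.SR

theorem stHC.{u, v} : ST_HC.{u, v} := by
  intro k X _ _ Γ K f Λ δ hΛ hδ hf hL x
  have ht : 0 < δ * Real.exp (-2) := mul_pos hδ (Real.exp_pos _)
  have hR : 0 ≤ Λ / K.c := div_nonneg hΛ K.c0.le
  have hclip : ∀ γ, |shr (δ * Real.exp (-2)) (K.Φ x) γ - K.Φ x γ| ≤ δ * Real.exp (-2) := by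
    intro γ
    have h := abs_clip_le ht (K.Φ x γ)
    have e : shr (δ * Real.exp (-2)) (K.Φ x) γ - K.Φ x γ =
        -clip (δ * Real.exp (-2)) (K.Φ x γ) := by
      unfold shr
      ring
    rw [e, abs_neg]
    exact h
  have hmem : f x + Λ / K.c * (δ * Real.exp (-2)) ∈
      hvals K f (Λ / K.c) (δ * Real.exp (-2)) (K.Φ x) :=
    ⟨x, δ * Real.exp (-2), ht.le, hclip, rfl⟩
  have hbdd : BddBelow (hvals K f (Λ / K.c) (δ * Real.exp (-2)) (K.Φ x)) := by
    refine ⟨0, ?_⟩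
    rintro s ⟨y, r, hr, -, rfl⟩
    exact add_nonneg (hf y).1 (mul_nonneg hR hr)
  have hlow : ∀ s ∈ hvals K f (Λ / K.c) (δ * Real.exp (-2)) (K.Φ x),
      f x - Λ / K.c * (δ * Real.exp (-2)) ≤ s := by
    rintro s ⟨y, r, hr, hy, rfl⟩
    have h1 : ∀ γ, |K.Φ x γ - K.Φ y γ| ≤ δ * Real.exp (-2) + r := fun γ => by
      have a1 := hclip γ
      have a2 := hy γ
      rw [abs_sub_comm] at a1
      exact (abs_sub_le _ (shr (δ * Real.exp (-2)) (K.Φ x) γ) _).trans (add_le_add a1 a2)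
    have h2 := K.lower x y _ (add_nonneg ht.le hr) h1
    have h3 := (abs_le.1 (hL x y)).2
    have h4 : Λ * ‖x - y‖ = Λ / K.c * (K.c * ‖x - y‖) := by
      have := K.c0.ne'
      field_simp
    have h5 := mul_le_mul_of_nonneg_left h2 hR
    rw [← h4, mul_add] at h5
    linarith
  rw [abs_le]
  constructor
  · have h1 : f x - Λ / K.c * (δ * Real.exp (-2)) ≤ Hf K f (Λ / K.c) δ (K.Φ x) := by
      refine le_min ?_ (le_csInf ⟨_, hmem⟩ hlow)
      have := (hf x).2
      have h2 := mul_nonneg hR ht.le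
      linarith
    linarith
  · have h1 : Hf K f (Λ / K.c) δ (K.Φ x) ≤ f x + Λ / K.c * (δ * Real.exp (-2)) :=
      (min_le_right _ _).trans (csInf_le hbdd hmem)
    linarith

end Pool.Agent.Helper94.UP
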